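import Pool.Agent.T6.H35.CQ.Final

/-!
# Good scales
-/

set_option autoImplicit false

namespace Pool.Agent.T6.H35.CQ

open Finset Polynomial
open Pool.Agent.T6.H35.EQ

lemma gap {α : ℝ} (h : Irrational α) (B : ℕ) : ∃ ε : ℝ, 0 < ε ∧ ∀ d : ℕ, 1 ≤ d → d ≤ B → ∀ b : ℤ,
    ε ≤ |d * α - b| := by
  induction B with
  | zero => exact ⟨1, one_pos, fun d h1 h2 => by omega⟩
  | succ B ih =>
    obtain ⟨ε, hε, hh⟩ := ih
    have h1 : 0 < |((B + 1 : ℕ) : ℝ) * α - round (((B + 1 : ℕ) : ℝ) * α)| := by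
      rw [abs_pos, sub_ne_zero]
      have h2 : Irrational (((B + 1 : ℕ) : ℝ) * α) := h.natCast_mul (by omega)
      exact h2.ne_int _
    refine ⟨min ε |((B + 1 : ℕ) : ℝ) * α - round (((B + 1 : ℕ) : ℝ) * α)|, lt_min hε h1, ?_⟩
    intro d hd1 hd2 b
    rcases Nat.lt_or_ge d (B + 1) with h3 | h3
    · exact (min_le_left _ _).trans (hh d hd1 (by omega) b)
    · have h4 : d = B + 1 := by omega
      subst h4
      exact (min_le_right _ _).trans (round_le _ _)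

lemma irr_scale {α : ℝ} (h : Irrational α) (B : ℕ) : ∃ V : ℕ, B ≤ V ∧ 1 ≤ V ∧ Irr V (1 / 4) α := by
  obtain ⟨ε, hε, hgap⟩ := gap h (B + 16)
  obtain ⟨n, hn⟩ := exists_nat_gt (1 / ε)
  have hn0 : 0 < n := by
    have : (0 : ℝ) < n := lt_trans (by positivity) hn
    exact_mod_cast this
  obtain ⟨r, hr1, hr2⟩ := Real.exists_rat_abs_sub_le_and_den_le α hn0
  have hn0' : (0 : ℝ) < n := by exact_mod_cast hn0
  set d : ℕ := r.den with hd
  have hd0 : 0 < d := r.pos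
  have hd0' : (0 : ℝ) < d := by exact_mod_cast hd0
  have hrnum : (r : ℝ) = r.num / d := by
    rw [hd]; exact_mod_cast (Rat.num_div_den r).symm
  have e1 : |(d : ℝ) * α - r.num| = d * |α - r| := by
    rw [hrnum]
    have : (d : ℝ) * α - r.num = d * (α - r.num / d) := by field_simp
    rw [this, abs_mul, abs_of_pos hd0']
  have hdB : B + 16 < d := by
    by_contra hcon
    have h1 := hgap d hd0 (by omega) r.num
    rw [e1] at h1
    have h2 : (d : ℝ) * |α - r| ≤ 1 / (n + 1) := by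
      calc (d : ℝ) * |α - r| ≤ d * (1 / ((n + 1) * d)) := by gcongr
        _ = _ := by field_simp
    have h3 : 1 / ((n : ℝ) + 1) < ε := by
      rw [div_lt_iff₀ (by positivity)]
      rw [div_lt_iff₀ hε] at hn
      nlinarith
    linarith
  have hdn : (d : ℝ) ≤ n := by exact_mod_cast hr2
  have hclose : |α - r| ≤ 1 / (d * d) := by
    refine hr1.trans ?_
    apply one_div_le_one_div_of_le (by positivity)
    nlinarith
  refine ⟨16 * d ^ 2, by nlinarith, by nlinarith, ?_⟩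
  intro m hm1 hm a
  have hVr : (((16 * d ^ 2 : ℕ)) : ℝ) = (4 * (d : ℝ)) ^ 2 := by push_cast; ring
  have hm2 : (m : ℝ) ^ 4 ≤ (4 * (d : ℝ)) ^ 2 := by
    rw [hVr] at hm
    calc (m : ℝ) ^ 4 ≤ (((4 * (d : ℝ)) ^ 2) ^ (1 / 4 : ℝ)) ^ 4 := by gcongr
      _ = (4 * (d : ℝ)) ^ 2 := by
          rw [← Real.rpow_natCast, ← Real.rpow_mul (by positivity)]
          norm_num
  have hm3 : (m : ℝ) ^ 2 ≤ 4 * d := by
    apply le_of_pow_le_pow_left₀ (n := 2) (by norm_num) (by positivity)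
    calc ((m : ℝ) ^ 2) ^ 2 = (m : ℝ) ^ 4 := by ring
      _ ≤ _ := hm2
  have hd16 : (16 : ℝ) ≤ d := by exact_mod_cast (by omega : 16 ≤ d)
  have hm4 : 2 * (m : ℝ) ≤ d := by
    apply le_of_pow_le_pow_left₀ (n := 2) (by norm_num) (by positivity)
    nlinarith
  have hm0 : (0 : ℝ) < m := by exact_mod_cast hm1
  have hmd : m < d := by
    have : (m : ℝ) < d := by linarith
    exact_mod_cast this
  have hVs : (((16 * d ^ 2 : ℕ)) : ℝ) ^ (-(1 / 2) : ℝ) = 1 / (4 * d) := by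
    rw [hVr, ← Real.rpow_natCast, ← Real.rpow_mul (by positivity)]
    norm_num
    rw [Real.rpow_neg_one]
    ring
  rw [hVs]
  have hz : (m : ℤ) * r.num - a * d ≠ 0 := by
    intro h0
    have h1 : (d : ℤ) ∣ (m : ℤ) * r.num := ⟨a, by linarith⟩
    have h2 : IsCoprime (d : ℤ) r.num := by
      rw [Int.isCoprime_iff_nat_coprime]
      simpa [hd] using r.reduced.symm
    have h3 : (d : ℤ) ∣ (m : ℤ) := h2.dvd_of_dvd_mul_right h1
    have h4 := Nat.le_of_dvd hm1 (Int.natCast_dvd_natCast.1 h3)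
    omega
  have h1 : (1 : ℝ) ≤ |(m : ℝ) * r.num - a * d| := by
    have : (1 : ℤ) ≤ |(m : ℤ) * r.num - a * d| := Int.one_le_abs hz
    exact_mod_cast this
  have h2 : 1 / (d : ℝ) ≤ |(m : ℝ) * r - a| := by
    rw [hrnum]
    have : (m : ℝ) * (r.num / d) - a = ((m : ℝ) * r.num - a * d) / d := by field_simp
    rw [this, abs_div, abs_of_pos hd0']
    gcongr
  have h3 : |(m : ℝ) * r - a| ≤ |(m : ℝ) * α - a| + m * |α - r| := by
    have e2 : (m : ℝ) * r - a = ((m : ℝ) * α - a) - m * (α - r) := by ring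
    rw [e2]
    refine (abs_sub _ _).trans ?_
    rw [abs_mul, abs_of_pos hm0]
  have h4 : (m : ℝ) * |α - r| ≤ 1 / (2 * d) := by
    calc (m : ℝ) * |α - r| ≤ m * (1 / (d * d)) := by gcongr
      _ ≤ (d / 2) * (1 / (d * d)) := by
          apply mul_le_mul_of_nonneg_right (by linarith) (by positivity)
      _ = _ := by field_simp
  have h5 : 1 / (d : ℝ) = 1 / (2 * d) + 1 / (2 * d) := by field_simp; norm_num
  have h6 : 1 / (4 * (d : ℝ)) < 1 / (2 * d) := by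
    apply one_div_lt_one_div_of_lt (by positivity)
    linarith
  linarith

/-- an irrational leading coefficient: infinitely many scales -/
theorem many_irr (k : ℕ) (hk : 1 ≤ k) : ∃ δ : ℝ, 0 < δ ∧ ∀ α : ℝ, Irrational α → ∀ B : ℕ,
    ∃ T : ℕ, B ≤ T ∧ ∀ P : ℝ[X], P.natDegree = k → P.leadingCoeff = α → ManyHits T δ P := by
  obtain ⟨δ, hδ, X₀, hX⟩ := final k hk (1 / 8) (by norm_num) (by norm_num)
  refine ⟨δ, hδ, fun α hα B => ?_⟩
  obtain ⟨V₀, hV0, hV1, hI⟩ := irr_scale hα (max B X₀)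
  have hself : V₀ ≤ V₀ ^ 4 := Nat.le_self_pow (by norm_num) V₀
  refine ⟨V₀ ^ 4, ((le_max_left _ _).trans hV0).trans hself, fun P hP hPα => ?_⟩
  refine hX (V₀ ^ 4) (((le_max_right _ _).trans hV0).trans hself) P hP (fun V h1 h2 => ?_)
  rw [hPα]
  have hV0r : (1 : ℝ) ≤ V₀ := by exact_mod_cast hV1
  have e1 : (((V₀ ^ 4 : ℕ)) : ℝ) ^ (1 / 4 : ℝ) = V₀ := by
    push_cast
    rw [← Real.rpow_natCast, ← Real.rpow_mul (by positivity)]
    norm_num
  have e2 : (((V₀ ^ 4 : ℕ)) : ℝ) ^ (1 / 2 : ℝ) = (V₀ : ℝ) ^ (2 : ℝ) := by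
    push_cast
    rw [← Real.rpow_natCast, ← Real.rpow_mul (by positivity)]
    norm_num
  rw [e1] at h1
  rw [e2] at h2
  intro m hm1 hm a
  have h3 : (m : ℝ) ≤ (V₀ : ℝ) ^ (1 / 4 : ℝ) := by
    calc (m : ℝ) ≤ (V : ℝ) ^ (1 / 8 : ℝ) := hm
      _ ≤ ((V₀ : ℝ) ^ (2 : ℝ)) ^ (1 / 8 : ℝ) := Real.rpow_le_rpow (by positivity) h2 (by norm_num)
      _ = _ := by rw [← Real.rpow_mul (by positivity)]; norm_num
  refine lt_of_le_of_lt ?_ (hI m hm1 h3 a)
  exact Real.rpow_le_rpow_of_nonpos (by linarith) h1 (by norm_num)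

/-- a leading coefficient of finite type: all large scales -/
theorem many_type (k : ℕ) (hk : 1 ≤ k) (τ : ℝ) (hτ : 1 ≤ τ) : ∃ δ : ℝ, 0 < δ ∧ ∀ c₀ : ℝ, 0 < c₀ →
    ∃ X₀ : ℕ, ∀ T : ℕ, X₀ ≤ T → ∀ P : ℝ[X], P.natDegree = k →
    (∀ d : ℕ, 1 ≤ d → ∀ b : ℤ, c₀ / (d : ℝ) ^ τ ≤ |d * P.leadingCoeff - b|) → ManyHits T δ P := by
  have hτ0 : 0 < τ := by linarith
  obtain ⟨δ, hδ, X₀, hX⟩ := final k hk (1 / (4 * τ)) (by positivity) (by
    rw [div_le_one (by positivity)]; linarith)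
  refine ⟨δ, hδ, fun c₀ hc₀ => ?_⟩
  obtain ⟨X₁, hX₁⟩ := exists_nat_gt ((1 / c₀) ^ (16 : ℝ))
  refine ⟨max (max X₀ X₁) 1, fun T hT P hP hfin => ?_⟩
  refine hX T ((le_max_left _ _).trans ((le_max_left _ _).trans hT)) P hP (fun V h1 h2 => ?_)
  have hT1 : (1 : ℝ) ≤ T := by exact_mod_cast (le_max_right _ _).trans hT
  have hTX : (X₁ : ℝ) ≤ T := by exact_mod_cast (le_max_right _ _).trans ((le_max_left _ _).trans hT)
  have hV1 : (1 : ℝ) ≤ V := (Real.one_le_rpow hT1 (by norm_num)).trans h1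
  have hV0 : (0 : ℝ) < V := by linarith
  have hVc : 1 / c₀ < (V : ℝ) ^ (1 / 4 : ℝ) := by
    calc 1 / c₀ = ((1 / c₀) ^ (16 : ℝ)) ^ (1 / 16 : ℝ) := by
          rw [← Real.rpow_mul (by positivity)]; norm_num
      _ < (T : ℝ) ^ (1 / 16 : ℝ) := Real.rpow_lt_rpow (by positivity) (hX₁.trans_le hTX) (by norm_num)
      _ = ((T : ℝ) ^ (1 / 4 : ℝ)) ^ (1 / 4 : ℝ) := by
          rw [← Real.rpow_mul (by positivity)]; norm_num
      _ ≤ _ := Real.rpow_le_rpow (by positivity) h1 (by norm_num)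
  intro m hm1 hm a
  refine lt_of_lt_of_le ?_ (hfin m hm1 a)
  have hm0 : (0 : ℝ) < m := by exact_mod_cast hm1
  have h3 : (m : ℝ) ^ τ ≤ (V : ℝ) ^ (1 / 4 : ℝ) := by
    calc (m : ℝ) ^ τ ≤ ((V : ℝ) ^ (1 / (4 * τ))) ^ τ := Real.rpow_le_rpow hm0.le hm hτ0.le
      _ = _ := by
          rw [← Real.rpow_mul hV0.le]
          have : 1 / (4 * τ) * τ = 1 / 4 := by field_simp
          rw [this]
  have h4 : c₀ / (V : ℝ) ^ (1 / 4 : ℝ) ≤ c₀ / (m : ℝ) ^ τ := by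
    have : 0 < (m : ℝ) ^ τ := by positivity
    gcongr
  refine lt_of_lt_of_le ?_ h4
  rw [lt_div_iff₀ (by positivity), ← Real.rpow_add hV0]
  have h5 : (V : ℝ) ^ (-(1 / 2) + 1 / 4 : ℝ) = ((V : ℝ) ^ (1 / 4 : ℝ))⁻¹ := by
    rw [← Real.rpow_neg hV0.le]; norm_num
  rw [h5]
  have h6 : 1 < c₀ * (V : ℝ) ^ (1 / 4 : ℝ) := by
    rw [div_lt_iff₀ hc₀] at hVc
    linarith
  rw [inv_lt_iff_one_lt_mul₀ (by positivity)]
  linarith

end Pool.Agent.T6.H35.CQ
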