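import Pool.Agent.T6.H35.CQ.Scales

/-!
# Polynomials with some irrational coefficient
-/

set_option autoImplicit false

namespace Pool.Agent.T6.H35.CQ

open Finset Polynomial
open Pool.Agent.T6.H35.EQ

/-- polynomial expressions with rational coefficients are periodic modulo one -/
lemma rat_period (w : ℕ → ℝ) (s : Finset ℕ) (h : ∀ i ∈ s, ∃ r : ℚ, (r : ℝ) = w i) :
    ∃ D : ℕ, 1 ≤ D ∧ ∀ n n' : ℕ, n ≡ n' [MOD D] → ∃ z : ℤ,
      ∑ i ∈ s, w i * (n : ℝ) ^ i = ∑ i ∈ s, w i * (n' : ℝ) ^ i + z := by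
  classical
  induction s using Finset.induction_on with
  | empty => exact ⟨1, le_rfl, fun n n' _ => ⟨0, by simp⟩⟩
  | insert j s hj ih =>
    obtain ⟨D, hD, hh⟩ := ih (fun i hi => h i (mem_insert_of_mem hi))
    obtain ⟨r, hr⟩ := h j (mem_insert_self _ _)
    refine ⟨D * r.den, Nat.mul_pos hD r.pos, fun n n' hn => ?_⟩
    obtain ⟨z, hz⟩ := hh n n' (hn.of_mul_right _)
    have h1 : n ^ j ≡ n' ^ j [MOD r.den] := (hn.of_mul_left _).pow j
    have h2 : ((r.den : ℕ) : ℤ) ∣ ((n ^ j : ℕ) : ℤ) - ((n' ^ j : ℕ) : ℤ) := h1.symm.dvd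
    obtain ⟨y, hy⟩ := h2
    refine ⟨z + r.num * y, ?_⟩
    rw [sum_insert hj, sum_insert hj, hz, ← hr]
    have h3 : (r : ℝ) = r.num / r.den := by exact_mod_cast (Rat.num_div_den r).symm
    have h4 : (n : ℝ) ^ j - (n' : ℝ) ^ j = r.den * y := by exact_mod_cast hy
    have h5 : (r.den : ℝ) ≠ 0 := by exact_mod_cast r.pos.ne'
    have h6 : (r : ℝ) * (n : ℝ) ^ j = r * (n' : ℝ) ^ j + r.num * y := by
      have h7 : (n : ℝ) ^ j = (n' : ℝ) ^ j + r.den * y := by linarith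
      rw [h7, mul_add, h3]
      field_simp
    rw [h6]
    push_cast
    ring

/-- the part of degree at most `j` -/
noncomputable def low (P : ℝ[X]) (j : ℕ) : ℝ[X] := ∑ i ∈ range (j + 1), C (P.coeff i) * X ^ i

lemma low_coeff (P : ℝ[X]) (j i : ℕ) : (low P j).coeff i = if i < j + 1 then P.coeff i else 0 := by
  unfold low
  rw [finset_sum_coeff]
  simp only [coeff_C_mul, coeff_X_pow, mul_ite, mul_one, mul_zero]
  rw [sum_ite_eq]
  simp only [mem_range]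

/-- a polynomial with an irrational coefficient of positive degree -/
theorem any_irr (P : ℝ[X]) (hP : ∃ j : ℕ, 1 ≤ j ∧ Irrational (P.coeff j)) : ∃ δ : ℝ, 0 < δ ∧
    ∀ q a : ℕ, 1 ≤ q → Squarefree (Nat.gcd a (8 * q)) → ∀ B : ℕ, ∃ T : ℕ, B ≤ T ∧
    ∀ β c : ℝ, (T : ℝ) ^ (-δ) ≤ c → c ≤ 1 →
      c * (T : ℝ) ^ (1 / 4 : ℝ) ≤ ((Hits T q a (P - C β) c).ncard : ℝ) := by
  classical
  -- the top irrational coefficient
  obtain ⟨j, hj1, hjI, hjtop⟩ : ∃ j : ℕ, 1 ≤ j ∧ Irrational (P.coeff j) ∧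
      ∀ i, j < i → ¬ Irrational (P.coeff i) := by
    obtain ⟨j₀, h1, h2⟩ := hP
    have hne : (P.support.filter (fun i => 1 ≤ i ∧ Irrational (P.coeff i))).Nonempty := by
      refine ⟨j₀, ?_⟩
      rw [mem_filter, mem_support_iff]
      exact ⟨h2.ne_zero, h1, h2⟩
    obtain ⟨j, hj, hmax⟩ := exists_max_image _ (fun i => i) hne
    rw [mem_filter] at hj
    refine ⟨j, hj.2.1, hj.2.2, fun i hi hI => ?_⟩
    have := hmax i (by
      rw [mem_filter, mem_support_iff]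
      exact ⟨hI.ne_zero, by omega, hI⟩)
    omega
  have hlow : (low P j).natDegree ≤ j := by
    rw [natDegree_le_iff_coeff_eq_zero]
    intro n hn
    rw [low_coeff, if_neg (by omega)]
  have hlj : (low P j).coeff j = P.coeff j := by rw [low_coeff, if_pos (by omega)]
  obtain ⟨D, hD, hper⟩ := rat_period P.coeff (Ico (j + 1) (j + 1 + P.natDegree + 1)) (by
    intro i hi
    rw [mem_Ico] at hi
    have := hjtop i (by omega)
    unfold Irrational at this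
    rw [not_not] at this
    exact this)
  have hev : ∀ n : ℕ, P.eval (n : ℝ) = (low P j).eval (n : ℝ) +
      ∑ i ∈ Ico (j + 1) (j + 1 + P.natDegree + 1), P.coeff i * (n : ℝ) ^ i := by
    intro n
    rw [eval_eq_sum_range' (show P.natDegree < j + 1 + P.natDegree + 1 by omega)]
    unfold low
    rw [eval_finset_sum]
    simp only [eval_mul, eval_C, eval_pow, eval_X]
    exact (sum_range_add_sum_Ico (fun i => P.coeff i * (n : ℝ) ^ i) (by omega)).symm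
  obtain ⟨δ, hδ, hmany⟩ := many_irr j hj1
  refine ⟨δ, hδ, fun q a hq hg B => ?_⟩
  obtain ⟨u, _, _, hus, hua⟩ := Pool.Agent.TH915.CN.core q a 1 hq hg le_rfl
  set a' := u * (4 * q ^ 2 * u - 1) * (4 * q ^ 2 * u + 1) with ha'
  set K : ℕ := q * D with hK
  have hK1 : 1 ≤ K := Nat.mul_pos hq hD
  have hK1r : (1 : ℝ) ≤ K := by exact_mod_cast hK1
  obtain ⟨B₁, hB₁⟩ := exists_nat_gt ((K : ℝ) ^ (1 / δ))
  obtain ⟨B₂, hB₂⟩ := exists_nat_gt ((3200 * (K : ℝ) ^ 4) ^ (12 : ℝ))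
  obtain ⟨T, hT, hTm⟩ := hmany (P.coeff j) hjI (max B (max B₁ B₂))
  refine ⟨T, (le_max_left _ _).trans hT, fun β c hc hc1 => ?_⟩
  have hT1 : (B₁ : ℝ) ≤ T := by exact_mod_cast ((le_max_left _ _).trans (le_max_right _ _)).trans hT
  have hT2 : (B₂ : ℝ) ≤ T := by exact_mod_cast ((le_max_right _ _).trans (le_max_right _ _)).trans hT
  have hT0 : (0 : ℝ) < T := by
    have : (0 : ℝ) < (K : ℝ) ^ (1 / δ) := by positivity
    linarith
  have hc0 : 0 ≤ c := le_trans (by positivity) hc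
  set x₀ : ℝ := ∑ i ∈ Ico (j + 1) (j + 1 + P.natDegree + 1), P.coeff i * (a' : ℝ) ^ i with hx₀
  set R : ℝ[X] := low P j + C (x₀ - β) with hR
  have hRj : R.coeff j = P.coeff j := by
    rw [hR, coeff_add, hlj, coeff_C, if_neg (by omega), add_zero]
  have hRd : R.natDegree = j := by
    apply le_antisymm
    · rw [hR]
      refine (natDegree_add_le _ _).trans ?_
      rw [natDegree_C]
      omega
    · apply le_natDegree_of_ne_zero
      rw [hRj]
      exact hjI.ne_zero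
  have hRl : R.leadingCoeff = P.coeff j := by rw [leadingCoeff, hRd, hRj]
  have hKT : (K : ℝ) ≤ (T : ℝ) ^ δ := by
    calc (K : ℝ) = ((K : ℝ) ^ (1 / δ)) ^ δ := by
          rw [← Real.rpow_mul (by positivity)]
          have : 1 / δ * δ = 1 := by field_simp
          rw [this, Real.rpow_one]
      _ ≤ _ := Real.rpow_le_rpow (by positivity) (hB₁.le.trans hT1) hδ.le
  have hgs : Squarefree (Nat.gcd a' (8 * K)) := hus.squarefree_of_dvd (Nat.gcd_dvd_left _ _)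
  have hmain := hTm R hRd hRl K a' hK1 hKT hgs c hc hc1
  have hsub : Hits T K a' R c ⊆ Hits T q a (P - C β) c := by
    rintro n ⟨h1, h2, h3, h4, h5⟩
    have h6 : n ≡ a' [MOD D] := h3.of_dvd ⟨8 * q, by rw [hK]; ring⟩
    have h7 : n ≡ a' [MOD 8 * q] := h3.of_dvd ⟨D, by rw [hK]; ring⟩
    refine ⟨h1, h2, h7.trans hua, h4, ?_⟩
    obtain ⟨z, hz⟩ := hper n a' h6
    have h8 : (P - C β).eval (n : ℝ) = R.eval (n : ℝ) + z := by
      rw [eval_sub, eval_C, hev n, hz, hR, eval_add, eval_C, hx₀]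
      ring
    rw [h8, Int.fract_add_intCast]
    exact h5
  have hfin : (Hits T q a (P - C β) c).Finite := (Set.finite_Iic T).subset (fun n hn => hn.1)
  have hle : ((Hits T K a' R c).ncard : ℝ) ≤ ((Hits T q a (P - C β) c).ncard : ℝ) := by
    exact_mod_cast Set.ncard_le_ncard hsub hfin
  refine le_trans ?_ (hmain.trans hle)
  set g := Nat.gcd a' (8 * K) with hgd
  have hg8 : (g : ℝ) ≤ 8 * K := by
    have : g ≤ 8 * K := Nat.le_of_dvd (by omega) (Nat.gcd_dvd_right _ _)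
    exact_mod_cast this
  have hg0 : (0 : ℝ) < g := by exact_mod_cast Nat.pos_of_ne_zero hgs.ne_zero
  have hT12 : 3200 * (K : ℝ) ^ 4 ≤ (T : ℝ) ^ (1 / 12 : ℝ) := by
    calc 3200 * (K : ℝ) ^ 4 = ((3200 * (K : ℝ) ^ 4) ^ (12 : ℝ)) ^ (1 / 12 : ℝ) := by
          rw [← Real.rpow_mul (by positivity)]; norm_num
      _ ≤ _ := Real.rpow_le_rpow (by positivity) (hB₂.le.trans hT2) (by norm_num)
  have h1 : (T : ℝ) ^ (1 / 3 : ℝ) / (K : ℝ) ^ 3 ≤ ((T : ℝ) / (K : ℝ) ^ 7) ^ (1 / 3 : ℝ) := by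
    have e : (T : ℝ) ^ (1 / 3 : ℝ) / (K : ℝ) ^ 3 = ((T : ℝ) / (K : ℝ) ^ 9) ^ (1 / 3 : ℝ) := by
      rw [Real.div_rpow hT0.le (by positivity), ← Real.rpow_natCast (K : ℝ) 9,
        ← Real.rpow_mul (by positivity)]
      norm_num
    rw [e]
    apply Real.rpow_le_rpow (by positivity) _ (by norm_num)
    apply div_le_div_of_nonneg_left hT0.le (by positivity)
    exact pow_le_pow_right₀ hK1r (by norm_num)
  have h2 : (T : ℝ) ^ (1 / 4 : ℝ) * (400 * g) ≤ ((T : ℝ) / (K : ℝ) ^ 7) ^ (1 / 3 : ℝ) := by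
    refine le_trans ?_ h1
    rw [le_div_iff₀ (by positivity)]
    calc (T : ℝ) ^ (1 / 4 : ℝ) * (400 * g) * (K : ℝ) ^ 3 ≤
        (T : ℝ) ^ (1 / 4 : ℝ) * (400 * (8 * K)) * (K : ℝ) ^ 3 := by gcongr
      _ = (T : ℝ) ^ (1 / 4 : ℝ) * (3200 * (K : ℝ) ^ 4) := by ring
      _ ≤ (T : ℝ) ^ (1 / 4 : ℝ) * (T : ℝ) ^ (1 / 12 : ℝ) := by gcongr
      _ = (T : ℝ) ^ (1 / 3 : ℝ) := by rw [← Real.rpow_add hT0]; norm_num
  rw [le_div_iff₀ (by positivity)]
  calc c * (T : ℝ) ^ (1 / 4 : ℝ) * (400 * g) = c * ((T : ℝ) ^ (1 / 4 : ℝ) * (400 * g)) := by ring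
    _ ≤ _ := mul_le_mul_of_nonneg_left h2 hc0

end Pool.Agent.T6.H35.CQ
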