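import Pool.Agent.T6.H35.CQ.Cong
import Pool.Agent.T6.H35.EQ.Poly
import Pool.Agent.T6.H35.EQ.Scale

/-!
# Weyl sums along the families
-/

set_option autoImplicit false

namespace Pool.Agent.T6.H35.CQ

open Finset Polynomial
open Pool.Agent.H469R2.NK (e norm_e e_add e_zero conj_e)
open Pool.Agent.T6.H35.EQ

/-- the polynomial of the family on a progression `u = a w + b` -/
noncomputable def NP (A a b : ℝ) : ℝ[X] := (C A * X ^ 3 - X : ℝ[X]).comp (C a * X + C b)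

lemma NP_eval (A a b x : ℝ) : (NP A a b).eval x = A * (a * x + b) ^ 3 - (a * x + b) := by
  unfold NP
  simp

lemma cube_deg {A : ℝ} (hA : A ≠ 0) : (C A * X ^ 3 - X : ℝ[X]).natDegree = 3 := by
  compute_degree!

lemma cube_lead {A : ℝ} (hA : A ≠ 0) : (C A * X ^ 3 - X : ℝ[X]).leadingCoeff = A := by
  rw [leadingCoeff, cube_deg hA]
  simp [coeff_X]

lemma NP_deg {A a : ℝ} (hA : A ≠ 0) (ha : a ≠ 0) (b : ℝ) : (NP A a b).natDegree = 3 := by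
  unfold NP
  rw [natDegree_comp, cube_deg hA, natDegree_linear ha]

lemma NP_lead {A a : ℝ} (hA : A ≠ 0) (ha : a ≠ 0) (b : ℝ) : (NP A a b).leadingCoeff = A * a ^ 3 := by
  unfold NP
  rw [leadingCoeff_comp (by rw [natDegree_linear ha]; norm_num), cube_lead hA, cube_deg hA,
    leadingCoeff_linear ha]

/-- equidistribution of `P (n)` along progressions of the family -/
theorem arc (k : ℕ) (hk : 1 ≤ k) (η : ℝ) (hη : 0 < η) (hη1 : η ≤ 1) : ∃ τ : ℝ, 0 < τ ∧ τ ≤ 1 / 8 ∧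
    ∃ ρ : ℝ, 0 < ρ ∧ ρ ≤ τ / 4 ∧ ∃ (E : ℝ) (V₀ : ℕ), 1 ≤ E ∧ ∀ V : ℕ, V₀ ≤ V → 1 ≤ V → ∀ P : ℝ[X],
    P.natDegree = k → Irr V η P.leadingCoeff → ∀ (q Q m : ℕ) (b : ℝ), 1 ≤ q → 1 ≤ Q → 1 ≤ m →
    (q : ℝ) ≤ (V : ℝ) ^ ρ → (Q : ℝ) ≤ 64 * ((V : ℝ) ^ ρ) ^ 2 → (m : ℝ) ≤ (V : ℝ) ^ ρ →
    ∀ W : ℕ, W ≤ V → ∀ c : ℝ, 0 ≤ c → c ≤ 1 →
    |(((range W).filter (fun w : ℕ =>
      Int.fract (P.eval ((NP (16 * (q : ℝ) ^ 4) (Q * (m : ℝ) ^ 2) b).eval (w : ℝ))) < c)).card : ℝ)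
      - c * W| ≤ E * (V : ℝ) ^ (1 - τ) := by
  obtain ⟨D, hD⟩ : ∃ D, k * 3 = D + 1 := ⟨k * 3 - 1, by omega⟩
  obtain ⟨σ, hσ0, hσ1, Cw, hCw, hw⟩ := weyl D (η / 2) (by positivity) (by linarith)
  set τ : ℝ := min (σ / 4) (η / 16) with hτ
  have hτ0 : 0 < τ := lt_min (by positivity) (by positivity)
  have hτ1 : τ ≤ σ / 4 := min_le_left _ _
  have hτ2 : τ ≤ η / 16 := min_le_right _ _
  set ρ : ℝ := min (τ / 4) (η / (128 * k)) with hρ
  have hk0 : (0 : ℝ) < k := by exact_mod_cast hk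
  have hρ0 : 0 < ρ := lt_min (by positivity) (by positivity)
  have hρ1 : ρ ≤ τ / 4 := min_le_left _ _
  have hρ2 : ρ ≤ η / (128 * k) := min_le_right _ _
  obtain ⟨V₀, hV₀⟩ := exists_nat_gt (((2 : ℝ) * (16 * 64 ^ 3) ^ k) ^ (4 / η))
  refine ⟨τ, hτ0, by linarith, ρ, hρ0, hρ1, 4 * Cw + 4, V₀, by linarith, ?_⟩
  intro V hV hV1' P hP hI q Q m b hq1 hQ1 hm hqV hQV hmV W hW c h0 h1
  have hV1 : (1 : ℝ) ≤ V := by exact_mod_cast hV1'
  have hV0 : (0 : ℝ) < V := by linarith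
  have hpw : ∀ t : ℝ, 0 < (V : ℝ) ^ t := fun t => Real.rpow_pos_of_pos hV0 t
  have hm0 : (0 : ℝ) < m := by exact_mod_cast hm
  have hq0 : (0 : ℝ) < q := by exact_mod_cast hq1
  have hQ0 : (0 : ℝ) < Q := by exact_mod_cast hQ1
  set a : ℝ := Q * (m : ℝ) ^ 2 with ha
  set A : ℝ := 16 * (q : ℝ) ^ 4 with hA
  have ha0 : a ≠ 0 := by positivity
  have hA0 : A ≠ 0 := by positivity
  set R : ℝ[X] := P.comp (NP A a b) with hR
  have hRdeg : R.natDegree = D + 1 := by rw [hR, natDegree_comp, hP, NP_deg hA0 ha0, hD]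
  have hRlead : R.leadingCoeff = P.leadingCoeff * (A * a ^ 3) ^ k := by
    rw [hR, leadingCoeff_comp (by rw [NP_deg hA0 ha0]; norm_num), NP_lead hA0 ha0, hP]
  have hev : ∀ w : ℕ, R.eval (w : ℝ) = P.eval ((NP A a b).eval (w : ℝ)) := fun w => by rw [hR, eval_comp]
  have hbig : (2 : ℝ) * (16 * 64 ^ 3) ^ k ≤ (V : ℝ) ^ (η / 4) := by
    have h2 : ((2 : ℝ) * (16 * 64 ^ 3) ^ k) ^ (4 / η) ≤ (V : ℝ) := hV₀.le.trans (by exact_mod_cast hV)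
    calc (2 : ℝ) * (16 * 64 ^ 3) ^ k = (((2 : ℝ) * (16 * 64 ^ 3) ^ k) ^ (4 / η)) ^ (η / 4) := by
          rw [← Real.rpow_mul (by positivity)]
          have : 4 / η * (η / 4) = 1 := by field_simp
          rw [this, Real.rpow_one]
      _ ≤ _ := Real.rpow_le_rpow (by positivity) h2 (by positivity)
  set N : ℤ := 16 * (q : ℤ) ^ 4 * ((Q : ℤ) * (m : ℤ) ^ 2) ^ 3 with hN
  have hNr : (N : ℝ) = A * a ^ 3 := by rw [hN]; push_cast; rw [hA, ha]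
  have hNpos : (0 : ℝ) < (N : ℝ) := by rw [hNr]; positivity
  have hm6 : (N : ℝ) ^ k ≤ (16 * 64 ^ 3) ^ k * (V : ℝ) ^ (η / 8) := by
    have e1 : (N : ℝ) ≤ (16 * 64 ^ 3) * ((V : ℝ) ^ ρ) ^ 16 := by
      rw [hNr, hA, ha]
      calc 16 * (q : ℝ) ^ 4 * (Q * (m : ℝ) ^ 2) ^ 3 ≤
          16 * ((V : ℝ) ^ ρ) ^ 4 * ((64 * ((V : ℝ) ^ ρ) ^ 2) * ((V : ℝ) ^ ρ) ^ 2) ^ 3 := by gcongr
        _ = _ := by ring
    calc (N : ℝ) ^ k ≤ ((16 * 64 ^ 3) * ((V : ℝ) ^ ρ) ^ 16) ^ k := by gcongr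
      _ = (16 * 64 ^ 3) ^ k * (((V : ℝ) ^ ρ) ^ 16) ^ k := mul_pow _ _ _
      _ = (16 * 64 ^ 3) ^ k * (V : ℝ) ^ (ρ * 16 * k) := by
          rw [← Real.rpow_natCast ((V : ℝ) ^ ρ) 16, ← Real.rpow_mul hV0.le,
            ← Real.rpow_natCast ((V : ℝ) ^ (ρ * ((16 : ℕ) : ℝ))) k, ← Real.rpow_mul hV0.le]
          push_cast; ring_nf
      _ ≤ _ := by
          apply mul_le_mul_of_nonneg_left _ (by positivity)
          apply Real.rpow_le_rpow_of_exponent_le hV1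
          rw [le_div_iff₀ (by positivity)] at hρ2
          linarith
  have hmain := disc (range W) (fun w : ℕ => R.eval (w : ℝ)) hV1 (by
      rw [card_range]; exact_mod_cast hW) hτ0 (E := Cw * (V : ℝ) ^ (1 - σ)) (fun h hh1 hh2 => by
    have hh0 : h ≠ 0 := by omega
    set r : ℤ := (h : ℤ) * N ^ k with hr
    have hr0 : r ≠ 0 := by
      rw [hr]
      have h3 : N ≠ 0 := by
        intro h0
        rw [h0] at hNpos
        simp at hNpos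
      have h4 : (h : ℤ) ≠ 0 := by exact_mod_cast hh0
      exact mul_ne_zero h4 (pow_ne_zero _ h3)
    have hrr : (r : ℝ) = h * (N : ℝ) ^ k := by
      rw [hr]; push_cast; ring
    have h4 := ph_poly D (C (h : ℝ) * R) ((natDegree_C_mul_le _ _).trans hRdeg.le)
    rw [coeff_C_mul] at h4
    have h5 : R.coeff (D + 1) = P.leadingCoeff * (A * a ^ 3) ^ k := by
      rw [← hRlead, leadingCoeff, hRdeg]
    rw [h5] at h4
    have h6 : (h : ℝ) * (P.leadingCoeff * (A * a ^ 3) ^ k) = (r : ℝ) * P.leadingCoeff := by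
      rw [hrr, hNr]
      ring
    rw [h6] at h4
    have hIr : Irr V (η / 2) (r * P.leadingCoeff) := by
      apply hI.mul hr0
      rw [hrr, abs_of_nonneg (by positivity)]
      have h7 : (h : ℝ) ≤ 2 * (V : ℝ) ^ (2 * τ) := hh2
      calc (V : ℝ) ^ (η / 2) * (h * (N : ℝ) ^ k) ≤
          (V : ℝ) ^ (η / 2) * ((2 * (V : ℝ) ^ (2 * τ)) * ((16 * 64 ^ 3) ^ k * (V : ℝ) ^ (η / 8))) := by
            gcongr
        _ = (V : ℝ) ^ (η / 2) * (V : ℝ) ^ (2 * τ) * (V : ℝ) ^ (η / 8) * (2 * (16 * 64 ^ 3) ^ k) := by ring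
        _ ≤ (V : ℝ) ^ (η / 2) * (V : ℝ) ^ (2 * τ) * (V : ℝ) ^ (η / 8) * (V : ℝ) ^ (η / 4) := by
            have := hpw (η / 2)
            have := hpw (2 * τ)
            have := hpw (η / 8)
            gcongr
        _ = (V : ℝ) ^ (η / 2 + 2 * τ + η / 8 + η / 4) := by
            rw [← Real.rpow_add hV0, ← Real.rpow_add hV0, ← Real.rpow_add hV0]
        _ ≤ _ := Real.rpow_le_rpow_of_exponent_le hV1 (by linarith)
    have h8 := hw V W _ _ hV1' hW hIr h4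
    simpa only [eval_mul, eval_C] using h8) h0 h1
  rw [card_range] at hmain
  simp only [hev] at hmain
  refine hmain.trans ?_
  have h9 : 4 * (V : ℝ) ^ (2 * τ) * (Cw * (V : ℝ) ^ (1 - σ)) ≤ 4 * Cw * (V : ℝ) ^ (1 - τ) := by
    calc 4 * (V : ℝ) ^ (2 * τ) * (Cw * (V : ℝ) ^ (1 - σ)) = 4 * Cw * ((V : ℝ) ^ (2 * τ) * (V : ℝ) ^ (1 - σ)) := by ring
      _ = 4 * Cw * (V : ℝ) ^ (2 * τ + (1 - σ)) := by rw [← Real.rpow_add hV0]
      _ ≤ _ := by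
        apply mul_le_mul_of_nonneg_left _ (by positivity)
        exact Real.rpow_le_rpow_of_exponent_le hV1 (by linarith)
  linarith

end Pool.Agent.T6.H35.CQ
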