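import Pool.Agent.T6.H35.CB.Cong
import Pool.Agent.TH915.CN.Fam

/-!
# Families of congruent numbers in residue classes
-/

set_option autoImplicit false

namespace Pool.Agent.T6.H35.CQ

open Finset
open Pool.Agent.T6.H35.CB (Congruent cn cn_congruent)

/-- the numbers `u (4 q² u - 1) (4 q² u + 1)` -/
def cnq (q u : ℕ) : ℕ := u * (4 * q ^ 2 * u - 1) * (4 * q ^ 2 * u + 1)

lemma four_le {q u : ℕ} (hq : 1 ≤ q) (hu : 1 ≤ u) : 4 ≤ 4 * q ^ 2 * u := by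
  have : 1 ≤ q ^ 2 * u := Nat.one_le_iff_ne_zero.2 (by positivity)
  have e : 4 * q ^ 2 * u = 4 * (q ^ 2 * u) := by ring
  omega

lemma cnq_congruent {q u : ℕ} (hq : 1 ≤ q) (hu : 1 ≤ u) : Congruent (cnq q u) := by
  obtain ⟨x, y, z, t, hx, hy, hz, ht, h1, h2⟩ :=
    cn_congruent (u := q ^ 2 * u) (Nat.one_le_iff_ne_zero.2 (by positivity))
  have e : cn (q ^ 2 * u) = q ^ 2 * cnq q u := by
    unfold cn cnq
    have : 4 * q ^ 2 * u = 4 * (q ^ 2 * u) := by ring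
    rw [this]
    ring
  rw [e] at h1 h2
  refine ⟨x, q * y, z, t, hx, by positivity, hz, ht, ?_, ?_⟩
  · rw [← h1]; ring
  · rw [h2]; ring

lemma cnq_cast {q u : ℕ} (hq : 1 ≤ q) (hu : 1 ≤ u) :
    (cnq q u : ℝ) = 16 * (q : ℝ) ^ 4 * (u : ℝ) ^ 3 - u := by
  have h := four_le hq hu
  rw [cnq]
  push_cast [Nat.cast_sub (by omega : 1 ≤ 4 * q ^ 2 * u)]
  ring

lemma cnq_le {q u : ℕ} : cnq q u ≤ 16 * q ^ 4 * u ^ 3 := by
  unfold cnq
  have h : (4 * q ^ 2 * u - 1) * (4 * q ^ 2 * u + 1) ≤ (4 * q ^ 2 * u) * (4 * q ^ 2 * u) := by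
    rcases Nat.eq_zero_or_pos (4 * q ^ 2 * u) with h0 | h0
    · rw [h0]
    · obtain ⟨w, hw⟩ : ∃ w, 4 * q ^ 2 * u = w + 1 := ⟨4 * q ^ 2 * u - 1, by omega⟩
      rw [hw]
      have : w + 1 - 1 = w := by omega
      rw [this]
      nlinarith
  calc u * (4 * q ^ 2 * u - 1) * (4 * q ^ 2 * u + 1) = u * ((4 * q ^ 2 * u - 1) * (4 * q ^ 2 * u + 1)) := by ring
    _ ≤ u * ((4 * q ^ 2 * u) * (4 * q ^ 2 * u)) := Nat.mul_le_mul_left _ h
    _ = _ := by ring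

lemma cnq_mono {q : ℕ} (hq : 1 ≤ q) {u v : ℕ} (h : u < v) : cnq q u < cnq q v := by
  unfold cnq
  have h1 : 0 < v := by omega
  have h2 := four_le hq h1
  have h5 : 4 * q ^ 2 * u < 4 * q ^ 2 * v := Nat.mul_lt_mul_of_pos_left h (by positivity)
  have h3 : u * (4 * q ^ 2 * u - 1) ≤ v * (4 * q ^ 2 * v - 1) := Nat.mul_le_mul h.le (by omega)
  have h4 : 0 < v * (4 * q ^ 2 * v - 1) := Nat.mul_pos h1 (by omega)
  exact Nat.mul_lt_mul_of_le_of_lt h3 (by omega) h4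

lemma cnq_inj {q : ℕ} (hq : 1 ≤ q) : Function.Injective (cnq q) :=
  (strictMono_nat_of_lt_succ fun n => cnq_mono hq (Nat.lt_succ_self n)).injective

lemma cnq_mod {q a a' u : ℕ} (hq : 1 ≤ q) (hu : 1 ≤ u) (ha : a' ≡ a [MOD 8 * q])
    (h : 8 * q ∣ u + a') : cnq q u ≡ a [MOD 8 * q] := by
  refine Nat.ModEq.trans ?_ ha
  apply Nat.ModEq.symm
  rw [Nat.modEq_iff_dvd]
  have h0 := four_le hq hu
  have h1 : ((8 * q : ℕ) : ℤ) ∣ ((u + a' : ℕ) : ℤ) := by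
    rw [Int.natCast_dvd_natCast]
    exact h
  have e : ((cnq q u : ℕ) : ℤ) - (a' : ℤ) =
      ((8 * q : ℕ) : ℤ) * (2 * (q : ℤ) ^ 3 * (u : ℤ) ^ 3) - ((u + a' : ℕ) : ℤ) := by
    unfold cnq
    rw [Nat.cast_mul, Nat.cast_mul, Nat.cast_sub (by omega)]
    push_cast
    ring
  rw [e]
  exact dvd_sub (dvd_mul_right _ _) h1

/-- the three factors -/
def fq (q : ℕ) (i : Fin 3) (u : ℕ) : ℕ :=
  if i = 0 then u else if i = 1 then 4 * q ^ 2 * u - 1 else 4 * q ^ 2 * u + 1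

lemma cnq_sqf {q u : ℕ} (hq : 1 ≤ q) (hu : 1 ≤ u)
    (h0 : ∀ p : ℕ, p.Prime → p ∣ 8 * q → ¬ p ^ 2 ∣ u)
    (h : ∀ i : Fin 3, ∀ m : ℕ, Odd m → 3 ≤ m → Nat.Coprime m (8 * q) → ¬ m ^ 2 ∣ fq q i u) :
    Squarefree (cnq q u) := by
  have h4 := four_le hq hu
  have key : ∀ x : ℕ, (∀ p : ℕ, p.Prime → p ∣ 8 * q → ¬ p ^ 2 ∣ x) →
      (∀ m : ℕ, Odd m → 3 ≤ m → Nat.Coprime m (8 * q) → ¬ m ^ 2 ∣ x) → Squarefree x := by
    intro x hx hm
    rw [Nat.squarefree_iff_prime_squarefree]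
    intro p hp hd
    by_cases hpq : p ∣ 8 * q
    · exact hx p hp hpq (by rw [pow_two]; exact hd)
    · have h2 : p ≠ 2 := by
        rintro rfl
        exact hpq (Dvd.dvd.mul_right (by norm_num) q)
      have ho : Odd p := hp.odd_of_ne_two h2
      have h3 := hp.two_le
      exact hm p ho (by omega) ((Nat.Prime.coprime_iff_not_dvd hp).2 hpq) (by rw [pow_two]; exact hd)
  have hs2 : ∀ p : ℕ, p.Prime → p ∣ 8 * q → p ∣ 4 * q ^ 2 * u := by
    intro p hp hpq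
    have : p ∣ 4 * q ^ 2 := by
      rcases (Nat.Prime.dvd_mul hp).1 hpq with h | h
      · have h8 : p ∣ 2 ^ 3 := by norm_num; exact h
        have h2 := hp.dvd_of_dvd_pow h8
        exact Dvd.dvd.mul_right (h2.trans (by norm_num)) _
      · exact Dvd.dvd.mul_left (h.trans (dvd_pow_self q two_ne_zero)) _
    exact this.mul_right _
  have s0 : Squarefree u := key u h0 (fun m a b c => h 0 m a b c)
  have s1 : Squarefree (4 * q ^ 2 * u - 1) := by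
    refine key _ (fun p hp hpq hd => ?_) (fun m a b c => h 1 m a b c)
    have h1 := hs2 p hp hpq
    have h2 : p ∣ 4 * q ^ 2 * u - 1 := (dvd_pow_self p two_ne_zero).trans hd
    have h3 := (Nat.dvd_sub h1 h2)
    have h5 : 4 * q ^ 2 * u - (4 * q ^ 2 * u - 1) = 1 := by omega
    rw [h5] at h3
    exact hp.one_lt.ne' (Nat.dvd_one.1 h3)
  have s2 : Squarefree (4 * q ^ 2 * u + 1) := by
    refine key _ (fun p hp hpq hd => ?_) (fun m a b c => h 2 m a b c)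
    have h1 := hs2 p hp hpq
    have h2 : p ∣ 4 * q ^ 2 * u + 1 := (dvd_pow_self p two_ne_zero).trans hd
    have h3 := (Nat.dvd_add_right h1).1 h2
    exact hp.one_lt.ne' (Nat.dvd_one.1 h3)
  exact Pool.Agent.TH915.CN.squarefree_three (by omega) (dvd_mul_left _ _)
    ⟨2 * q ^ 2 * u, by ring⟩ s0 s1 s2

end Pool.Agent.T6.H35.CQ
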