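import Pool.Agent.T6.H35.CQ.Main

/-!
# The main theorem
-/

set_option autoImplicit false

namespace Pool.Agent.T6.H35.CQ

open Finset Polynomial
open Pool.Agent.T6.H35.EQ
open Pool.Agent.T6.H35.CB (Congruent)

/-- the squarefree congruent numbers `n ≤ T` in the class `a` modulo `8 q` for which the fractional
part of `P (n)` is smaller than `c` -/
def Hits (T q a : ℕ) (P : ℝ[X]) (c : ℝ) : Set ℕ :=
  {n | n ≤ T ∧ Squarefree n ∧ n ≡ a [MOD 8 * q] ∧ Congruent n ∧ Int.fract (P.eval (n : ℝ)) < c}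

/-- the lower bound, for all moduli `q ≤ T ^ δ`, all classes `a` with squarefree `gcd (a, 8 q)` and
all `T ^ (- δ) ≤ c ≤ 1` -/
def ManyHits (T : ℕ) (δ : ℝ) (P : ℝ[X]) : Prop :=
  ∀ q a : ℕ, 1 ≤ q → (q : ℝ) ≤ (T : ℝ) ^ δ → Squarefree (Nat.gcd a (8 * q)) →
    ∀ c : ℝ, (T : ℝ) ^ (-δ) ≤ c → c ≤ 1 →
      c * ((T : ℝ) / (q : ℝ) ^ 7) ^ (1 / 3 : ℝ) / (400 * (Nat.gcd a (8 * q) : ℝ)) ≤
        ((Hits T q a P c).ncard : ℝ)

theorem final (k : ℕ) (hk : 1 ≤ k) (η : ℝ) (hη : 0 < η) (hη1 : η ≤ 1) : ∃ δ : ℝ, 0 < δ ∧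
    ∃ X₀ : ℕ, ∀ T : ℕ, X₀ ≤ T → ∀ P : ℝ[X], P.natDegree = k →
    (∀ V : ℕ, (T : ℝ) ^ (1 / 4 : ℝ) ≤ V → (V : ℝ) ≤ (T : ℝ) ^ (1 / 2 : ℝ) → Irr V η P.leadingCoeff) →
    ManyHits T δ P := by
  classical
  obtain ⟨δ₁, hδ0, hδ1, V₀, hc⟩ := count k hk η hη hη1
  set δ : ℝ := min (δ₁ / 4) (1 / 100) with hδ
  have hd0 : 0 < δ := lt_min (by positivity) (by norm_num)
  have hd1 : δ ≤ δ₁ / 4 := min_le_left _ _
  have hd2 : δ ≤ 1 / 100 := min_le_right _ _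
  obtain ⟨X₁, hX₁⟩ := exists_nat_gt ((33554432 : ℝ) ^ (20 / 3 : ℝ))
  refine ⟨δ, hd0, max (max X₁ (V₀ ^ 4)) 1, ?_⟩
  intro T hT P hP hI q a hq hqT hg c hcT hc1
  have hT1' : 1 ≤ T := (le_max_right _ _).trans hT
  have hT1 : (1 : ℝ) ≤ T := by exact_mod_cast hT1'
  have hT0 : (0 : ℝ) < T := by linarith
  have hTX : (X₁ : ℝ) ≤ T := by exact_mod_cast (le_max_left _ _).trans ((le_max_left _ _).trans hT)
  have hTV : ((V₀ : ℝ)) ^ 4 ≤ T := by exact_mod_cast (le_max_right _ _).trans ((le_max_left _ _).trans hT)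
  obtain ⟨a', ha', hrep⟩ := Pool.Agent.TH915.CN.class_rep (8 * q) a hg
  set g := Nat.gcd a (8 * q) with hgdef
  have hg1 : 1 ≤ g := Nat.one_le_iff_ne_zero.2 hg.ne_zero
  have hgM : g ∣ 8 * q := Nat.gcd_dvd_right _ _
  have hg8 : g ≤ 8 * q := Nat.le_of_dvd (by omega) hgM
  set Q := 8 * q * g with hQ
  have hQ1 : 1 ≤ Q := Nat.mul_pos (by omega) hg1
  have hQq : Q ≤ 64 * q ^ 2 := by
    rw [hQ]; nlinarith
  obtain ⟨u₀, hu1, hu2, hu3⟩ := Pool.Agent.TH915.CN.exists_start Q a' 1 hQ1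
  have hcop : ∀ m : ℕ, Nat.Coprime m (8 * q) → Nat.Coprime m Q := fun m hm =>
    hm.mul_right (hm.coprime_dvd_right hgM)
  have hq0 : (0 : ℝ) < q := by exact_mod_cast hq
  have hg0 : (0 : ℝ) < g := by exact_mod_cast hg1
  have hq1r : (1 : ℝ) ≤ q := by exact_mod_cast hq
  have hg1r : (1 : ℝ) ≤ g := by exact_mod_cast hg1
  have hg8r : (g : ℝ) ≤ 8 * q := by exact_mod_cast hg8
  set M : ℝ := 8192 * (q : ℝ) ^ 7 * (g : ℝ) ^ 3 with hM
  have hM0 : 0 < M := by positivity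
  have hM1 : 1 ≤ M := by
    rw [hM]
    have h1 : (1 : ℝ) ≤ (q : ℝ) ^ 7 := one_le_pow₀ hq1r
    have h2 : (1 : ℝ) ≤ (g : ℝ) ^ 3 := one_le_pow₀ hg1r
    nlinarith
  set y : ℝ := ((T : ℝ) / M) ^ (1 / 3 : ℝ) with hy
  have hy0 : 0 < y := by positivity
  have hy3 : y ^ 3 * M = T := by
    rw [hy, ← Real.rpow_natCast, ← Real.rpow_mul (by positivity)]
    norm_num
    field_simp
  set x : ℝ := (T : ℝ) ^ (1 / 4 : ℝ) with hx
  have hx1 : 1 ≤ x := Real.one_le_rpow hT1 (by norm_num)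
  have hx4 : x ^ 4 = T := by
    rw [hx, ← Real.rpow_natCast, ← Real.rpow_mul hT0.le]
    norm_num
  have hMx : 8 * M ≤ x := by
    have h1 : (33554432 : ℝ) ≤ (T : ℝ) ^ (3 / 20 : ℝ) := by
      calc (33554432 : ℝ) = ((33554432 : ℝ) ^ (20 / 3 : ℝ)) ^ (3 / 20 : ℝ) := by
            rw [← Real.rpow_mul (by norm_num)]; norm_num
        _ ≤ _ := Real.rpow_le_rpow (by positivity) (hX₁.le.trans hTX) (by norm_num)
    have h2 : (q : ℝ) ^ 10 ≤ (T : ℝ) ^ (1 / 10 : ℝ) := by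
      calc (q : ℝ) ^ 10 ≤ ((T : ℝ) ^ δ) ^ 10 := by gcongr
        _ = (T : ℝ) ^ (δ * ((10 : ℕ) : ℝ)) := by rw [← Real.rpow_natCast, ← Real.rpow_mul hT0.le]
        _ ≤ _ := Real.rpow_le_rpow_of_exponent_le hT1 (by push_cast; linarith)
    have h3 : (T : ℝ) ^ (3 / 20 : ℝ) * (T : ℝ) ^ (1 / 10 : ℝ) = x := by
      rw [← Real.rpow_add hT0, hx]; norm_num
    calc 8 * M = 65536 * (q : ℝ) ^ 7 * (g : ℝ) ^ 3 := by rw [hM]; ring
      _ ≤ 65536 * (q : ℝ) ^ 7 * (8 * q) ^ 3 := by gcongr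
      _ = 33554432 * (q : ℝ) ^ 10 := by ring
      _ ≤ (T : ℝ) ^ (3 / 20 : ℝ) * (T : ℝ) ^ (1 / 10 : ℝ) := by gcongr
      _ = x := h3
  have hyx : 2 * x ≤ y := by
    apply le_of_pow_le_pow_left₀ (n := 3) (by norm_num) hy0.le
    have h1 : (2 * x) ^ 3 * M ≤ y ^ 3 * M := by
      rw [hy3, ← hx4]
      have h2 : x ^ 3 * (8 * M) ≤ x ^ 3 * x := mul_le_mul_of_nonneg_left hMx (by positivity)
      nlinarith
    exact le_of_mul_le_mul_right h1 hM0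
  set V : ℕ := ⌊y⌋₊ with hV
  have hVy : (V : ℝ) ≤ y := Nat.floor_le hy0.le
  have hVy2 : y < V + 1 := Nat.lt_floor_add_one y
  have hVx : x ≤ V := by linarith
  have hV1 : (1 : ℝ) ≤ V := by linarith
  have hV1' : 1 ≤ V := by exact_mod_cast hV1
  have hV0 : (0 : ℝ) < V := by linarith
  have hy2V : y ≤ 2 * V := by linarith
  have hVV : V₀ ≤ V := by
    have h1 : (V₀ : ℝ) ≤ x := by
      apply le_of_pow_le_pow_left₀ (n := 4) (by norm_num) (by linarith)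
      rw [hx4]; exact hTV
    exact_mod_cast h1.trans hVx
  have hyT : y ≤ (T : ℝ) ^ (1 / 2 : ℝ) := by
    have h1 : y ≤ (T : ℝ) ^ (1 / 3 : ℝ) := by
      apply Real.rpow_le_rpow (by positivity) (div_le_self hT0.le hM1) (by norm_num)
    exact h1.trans (Real.rpow_le_rpow_of_exponent_le hT1 (by norm_num))
  have hIV := hI V hVx (hVy.trans hyT)
  have hTδ : (T : ℝ) ^ δ ≤ (V : ℝ) ^ δ₁ := by
    calc (T : ℝ) ^ δ ≤ (T : ℝ) ^ (1 / 4 * δ₁) := Real.rpow_le_rpow_of_exponent_le hT1 (by linarith)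
      _ = x ^ δ₁ := by rw [hx, ← Real.rpow_mul hT0.le]
      _ ≤ _ := Real.rpow_le_rpow (by linarith) hVx hδ0.le
  have hcV : (V : ℝ) ^ (-δ₁) ≤ c := by
    refine le_trans ?_ hcT
    rw [Real.rpow_neg hV0.le, Real.rpow_neg hT0.le]
    exact inv_anti₀ (by positivity) hTδ
  have hc0 : 0 ≤ c := le_trans (by positivity) hcV
  have hmain := hc V hVV hV1' P hP hIV q Q u₀ hq hQ1 hu1 (by omega) (hqT.trans hTδ) hQq hcop c hcV hc1
  set G := (range V).filter (fun v : ℕ =>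
      (∀ i : Fin 3, ∀ m : ℕ, Odd m → 3 ≤ m → Nat.Coprime m (8 * q) → ¬ m ^ 2 ∣ fq q i (Q * v + u₀)) ∧
      Int.fract (P.eval ((cnq q (Q * v + u₀) : ℕ) : ℝ)) < c) with hG
  have hinj : Function.Injective (fun v : ℕ => cnq q (Q * v + u₀)) := by
    intro v v' h
    have h1 := cnq_inj hq h
    have h2 : Q * v = Q * v' := by omega
    exact Nat.eq_of_mul_eq_mul_left hQ1 h2
  have hsub : ((G.image (fun v : ℕ => cnq q (Q * v + u₀)) : Finset ℕ) : Set ℕ) ⊆ Hits T q a P c := by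
    intro n hn
    rw [Finset.mem_coe, mem_image] at hn
    obtain ⟨v, hv, rfl⟩ := hn
    rw [hG, mem_filter, mem_range] at hv
    obtain ⟨hv1, hv2, hv3⟩ := hv
    have hU : 1 ≤ Q * v + u₀ := by omega
    have hdv : Q ∣ (Q * v + u₀) + a' := by
      have e : (Q * v + u₀) + a' = Q * v + (u₀ + a') := by ring
      rw [e]
      exact dvd_add (dvd_mul_right _ _) hu3
    refine ⟨?_, ?_, ?_, cnq_congruent hq hU, hv3⟩
    · have h6 : Q * v + u₀ ≤ Q * V := by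
        have : Q * (v + 1) ≤ Q * V := Nat.mul_le_mul_left _ hv1
        have e : Q * (v + 1) = Q * v + Q := by ring
        omega
      have h7 : cnq q (Q * v + u₀) ≤ 16 * q ^ 4 * (Q * V) ^ 3 :=
        cnq_le.trans (Nat.mul_le_mul_left _ (Nat.pow_le_pow_left h6 3))
      refine h7.trans ?_
      have h8 : (16 * (q : ℝ) ^ 4 * (Q * V) ^ 3) ≤ T := by
        have h9 : (16 * (q : ℝ) ^ 4 * (Q * V) ^ 3) = (V : ℝ) ^ 3 * M := by
          rw [hM, hQ]; push_cast; ring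
        rw [h9, ← hy3]
        gcongr
      exact_mod_cast h8
    · exact cnq_sqf hq hU (fun p hp hpq => hrep p hp hpq _ hdv) hv2
    · exact cnq_mod hq hU ha' ((dvd_mul_right _ _ : 8 * q ∣ Q).trans hdv)
  have hfin : (Hits T q a P c).Finite := (Set.finite_Iic T).subset (fun n hn => hn.1)
  have hcard : (G.card : ℝ) ≤ (Hits T q a P c).ncard := by
    have h1 := Set.ncard_le_ncard hsub hfin
    rw [Set.ncard_coe_finset, card_image_of_injective _ hinj] at h1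
    exact_mod_cast h1
  have hmain' : c * V / 8 ≤ (G.card : ℝ) := by
    convert hmain using 2
  refine le_trans ?_ (hmain'.trans hcard)
  have hz : ((T : ℝ) / (q : ℝ) ^ 7) ^ (1 / 3 : ℝ) ≤ 50 * g * V := by
    have h1 : (T : ℝ) / (q : ℝ) ^ 7 ≤ (50 * g * V) ^ 3 := by
      rw [div_le_iff₀ (by positivity), ← hy3, hM]
      have h2 : y ^ 3 ≤ (2 * V) ^ 3 := by gcongr
      calc y ^ 3 * (8192 * (q : ℝ) ^ 7 * (g : ℝ) ^ 3) ≤ (2 * V) ^ 3 * (8192 * (q : ℝ) ^ 7 * (g : ℝ) ^ 3) := by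
            gcongr
        _ = 65536 * ((g : ℝ) ^ 3 * (V : ℝ) ^ 3 * (q : ℝ) ^ 7) := by ring
        _ ≤ 125000 * ((g : ℝ) ^ 3 * (V : ℝ) ^ 3 * (q : ℝ) ^ 7) := by
            apply mul_le_mul_of_nonneg_right (by norm_num) (by positivity)
        _ = _ := by ring
    calc ((T : ℝ) / (q : ℝ) ^ 7) ^ (1 / 3 : ℝ) ≤ ((50 * g * V) ^ 3) ^ (1 / 3 : ℝ) :=
          Real.rpow_le_rpow (by positivity) h1 (by norm_num)
      _ = 50 * g * V := by
          rw [← Real.rpow_natCast, ← Real.rpow_mul (by positivity)]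
          norm_num
  rw [div_le_div_iff₀ (by positivity) (by norm_num)]
  calc c * ((T : ℝ) / (q : ℝ) ^ 7) ^ (1 / 3 : ℝ) * 8 ≤ c * (50 * g * V) * 8 := by gcongr
    _ = c * V * (400 * g) := by ring

end Pool.Agent.T6.H35.CQ
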