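import Pool.Agent.T6.H35.CQ.Arc

/-!
# Squarefree members of the family with `P (n)` in a short arc
-/

set_option autoImplicit false

namespace Pool.Agent.T6.H35.CQ

open Finset Polynomial
open Pool.Agent.T6.H35.EQ

lemma fq_pos {q : ℕ} (hq : 1 ≤ q) {i : Fin 3} {u : ℕ} (hu : 1 ≤ u) : 0 < fq q i u := by
  have := four_le hq hu
  unfold fq; split_ifs <;> omega

lemma fq_le {q : ℕ} (hq : 1 ≤ q) (i : Fin 3) (u : ℕ) : fq q i u ≤ 4 * q ^ 2 * u + 1 := by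
  have : 1 * u ≤ 4 * q ^ 2 * u := Nat.mul_le_mul_right _ (Nat.one_le_iff_ne_zero.2 (by positivity))
  unfold fq; split_ifs <;> omega

lemma fq_sub {q Q u₀ : ℕ} (hq : 1 ≤ q) (hu : 1 ≤ u₀) (i : Fin 3) {m : ℕ}
    (hm : Nat.Coprime m (8 * q)) (hmQ : Nat.Coprime m Q) {v v' : ℕ} (h : v ≤ v')
    (h1 : m ^ 2 ∣ fq q i (Q * v + u₀)) (h2 : m ^ 2 ∣ fq q i (Q * v' + u₀)) : m ^ 2 ∣ v' - v := by
  obtain ⟨d, rfl⟩ := Nat.exists_eq_add_of_le h
  have hd : v + d - v = d := by omega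
  rw [hd]
  have hcq : Nat.Coprime m q := hm.coprime_mul_left_right
  have hc4 : Nat.Coprime m 4 := hm.coprime_dvd_right (Dvd.intro (2 * q) (by ring))
  have hc : Nat.Coprime (m ^ 2) (4 * q ^ 2 * Q) :=
    Nat.Coprime.pow_left 2 ((hc4.mul_right (hcq.pow_right 2)).mul_right hmQ)
  have h3 : m ^ 2 ∣ fq q i (Q * (v + d) + u₀) - fq q i (Q * v + u₀) := Nat.dvd_sub h2 h1
  have h4 : m ^ 2 ∣ 4 * q ^ 2 * Q * d := by
    have h5 := four_le hq (show 1 ≤ Q * v + u₀ by omega)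
    have e1 : 4 * q ^ 2 * (Q * (v + d) + u₀) = 4 * q ^ 2 * (Q * v + u₀) + 4 * q ^ 2 * Q * d := by ring
    have e2 : Q * (v + d) + u₀ = Q * v + u₀ + Q * d := by ring
    unfold fq at h3
    split_ifs at h3 with a b
    · rw [e2] at h3
      have : Q * v + u₀ + Q * d - (Q * v + u₀) = Q * d := by omega
      rw [this] at h3
      exact h3.trans ⟨4 * q ^ 2, by ring⟩
    · rw [e1] at h3
      have : 4 * q ^ 2 * (Q * v + u₀) + 4 * q ^ 2 * Q * d - 1 - (4 * q ^ 2 * (Q * v + u₀) - 1) =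
        4 * q ^ 2 * Q * d := by omega
      rwa [this] at h3
    · rw [e1] at h3
      have : 4 * q ^ 2 * (Q * v + u₀) + 4 * q ^ 2 * Q * d + 1 - (4 * q ^ 2 * (Q * v + u₀) + 1) =
        4 * q ^ 2 * Q * d := by omega
      rwa [this] at h3
  exact hc.dvd_of_dvd_mul_left h4

lemma prog {q Q u₀ : ℕ} (hq : 1 ≤ q) (hu : 1 ≤ u₀) (i : Fin 3) {m : ℕ}
    (hm : Nat.Coprime m (8 * q)) (hmQ : Nat.Coprime m Q) : ∃ t : ℕ, ∀ v : ℕ,
    m ^ 2 ∣ fq q i (Q * v + u₀) → ∃ w, v = m ^ 2 * w + t := by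
  classical
  by_cases h : ∃ t, m ^ 2 ∣ fq q i (Q * t + u₀)
  · refine ⟨Nat.find h, fun v hv => ?_⟩
    have h1 := Nat.find_min' h hv
    obtain ⟨w, hw⟩ := fq_sub hq hu i hm hmQ h1 (Nat.find_spec h) hv
    exact ⟨w, by omega⟩
  · exact ⟨0, fun v hv => absurd ⟨v, hv⟩ h⟩

open Classical in
lemma bad_card {q Q u₀ : ℕ} (hq : 1 ≤ q) (hu : 1 ≤ u₀) (hQ : ∀ m : ℕ, Nat.Coprime m (8 * q) → Nat.Coprime m Q)
    (i : Fin 3) {m : ℕ} (hm3 : 3 ≤ m) (F : ℕ → ℝ)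
    (c : ℝ) (V : ℕ) :
    ∃ t : ℕ, ((range V).filter (fun v : ℕ => (Nat.Coprime m (8 * q) ∧ m ^ 2 ∣ fq q i (Q * v + u₀)) ∧
        Int.fract (F (cnq q (Q * v + u₀))) < c)).card ≤
      ((range (V / m ^ 2 + 1)).filter (fun w : ℕ =>
        Int.fract (F (cnq q (Q * (m ^ 2 * w + t) + u₀))) < c)).card := by
  by_cases hm : Nat.Coprime m (8 * q)
  · obtain ⟨t, ht⟩ := prog hq hu i hm (hQ m hm)
    refine ⟨t, ?_⟩
    refine (card_le_card (t := ((range (V / m ^ 2 + 1)).filter (fun w : ℕ =>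
      Int.fract (F (cnq q (Q * (m ^ 2 * w + t) + u₀))) < c)).image (fun w => m ^ 2 * w + t)) ?_).trans
      card_image_le
    intro v hv
    rw [mem_filter, mem_range] at hv
    obtain ⟨hv1, ⟨hv0, hv2⟩, hv3⟩ := hv
    obtain ⟨w, rfl⟩ := ht v hv2
    rw [mem_image]
    refine ⟨w, ?_, rfl⟩
    rw [mem_filter, mem_range]
    refine ⟨?_, hv3⟩
    have : w ≤ V / m ^ 2 := (Nat.le_div_iff_mul_le (by positivity)).2 (by nlinarith)
    omega
  · refine ⟨0, ?_⟩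
    have : (range V).filter (fun v : ℕ => (Nat.Coprime m (8 * q) ∧ m ^ 2 ∣ fq q i (Q * v + u₀)) ∧
        Int.fract (F (cnq q (Q * v + u₀))) < c) = ∅ := by
      rw [filter_eq_empty_iff]
      intro v _ h
      exact hm h.1.1
    rw [this, card_empty]
    exact Nat.zero_le _

lemma sum_sq (a b : ℕ) (ha : 1 ≤ a) (hab : a ≤ b) :
    ∑ j ∈ Ico a b, 1 / (2 * (j : ℝ) + 1) ^ 2 ≤ 1 / (4 * (a : ℝ)) - 1 / (4 * (b : ℝ)) := by
  induction b, hab using Nat.le_induction with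
  | base => simp
  | succ b hb ih =>
    rw [sum_Ico_succ_top hb]
    have hb0 : (0 : ℝ) < b := by exact_mod_cast (by omega : 0 < b)
    have h : 1 / (2 * (b : ℝ) + 1) ^ 2 ≤ 1 / (4 * (b : ℝ)) - 1 / (4 * ((b : ℝ) + 1)) := by
      rw [div_sub_div _ _ (by positivity) (by positivity), div_le_div_iff₀ (by positivity) (by positivity)]
      nlinarith
    push_cast
    linarith

open Classical in
/-- the main count -/
theorem count (k : ℕ) (hk : 1 ≤ k) (η : ℝ) (hη : 0 < η) (hη1 : η ≤ 1) : ∃ δ : ℝ, 0 < δ ∧ δ ≤ 1 ∧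
    ∃ V₀ : ℕ, ∀ V : ℕ, V₀ ≤ V → 1 ≤ V → ∀ P : ℝ[X], P.natDegree = k → Irr V η P.leadingCoeff →
    ∀ q Q u₀ : ℕ, 1 ≤ q → 1 ≤ Q → 1 ≤ u₀ → u₀ ≤ Q → (q : ℝ) ≤ (V : ℝ) ^ δ → Q ≤ 64 * q ^ 2 →
    (∀ m : ℕ, Nat.Coprime m (8 * q) → Nat.Coprime m Q) →
    ∀ c : ℝ, (V : ℝ) ^ (-δ) ≤ c → c ≤ 1 →
    c * V / 8 ≤ (((range V).filter (fun v : ℕ =>
      (∀ i : Fin 3, ∀ m : ℕ, Odd m → 3 ≤ m → Nat.Coprime m (8 * q) → ¬ m ^ 2 ∣ fq q i (Q * v + u₀)) ∧
      Int.fract (P.eval ((cnq q (Q * v + u₀) : ℕ) : ℝ)) < c)).card : ℝ) := by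
  obtain ⟨τ, hτ0, hτ1, ρ, hρ0, hρ1, E, V₁, hE, harc⟩ := arc k hk η hη hη1
  obtain ⟨V₂, hV₂⟩ := exists_nat_gt ((320 * E) ^ (2 / ρ))
  refine ⟨ρ / 2, by positivity, by linarith, max V₁ V₂, ?_⟩
  intro V hV hV1' P hP hI q Q u₀ hq1 hQ1 hu1 huQ hqV' hQq hcop c hcV hc1
  have hV1 : (1 : ℝ) ≤ V := by exact_mod_cast hV1'
  have hV0 : (0 : ℝ) < V := by linarith
  have hpw : ∀ t : ℝ, 0 < (V : ℝ) ^ t := fun t => Real.rpow_pos_of_pos hV0 t
  have hc0 : 0 ≤ c := (hpw _).le.trans hcV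
  have hVV : V₁ ≤ V := (le_max_left _ _).trans hV
  have hqV : (q : ℝ) ≤ (V : ℝ) ^ ρ :=
    hqV'.trans (Real.rpow_le_rpow_of_exponent_le hV1 (by linarith))
  have hq0 : (0 : ℝ) ≤ q := Nat.cast_nonneg q
  have hQV : (Q : ℝ) ≤ 64 * ((V : ℝ) ^ ρ) ^ 2 := by
    have h1 : (Q : ℝ) ≤ 64 * (q : ℝ) ^ 2 := by exact_mod_cast hQq
    refine h1.trans ?_
    gcongr
  set F : ℕ → ℝ := fun n => P.eval (n : ℝ) with hF
  set Z : ℝ := (V : ℝ) ^ ρ with hZ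
  have hZ1 : 1 ≤ Z := Real.one_le_rpow hV1 hρ0.le
  set G := (range V).filter (fun v : ℕ =>
      (∀ i : Fin 3, ∀ m : ℕ, Odd m → 3 ≤ m → Nat.Coprime m (8 * q) → ¬ m ^ 2 ∣ fq q i (Q * v + u₀)) ∧
      Int.fract (F (cnq q (Q * v + u₀))) < c) with hG
  set A := (range V).filter (fun v : ℕ => Int.fract (F (cnq q (Q * v + u₀))) < c) with hA
  set Bd : Fin 3 → ℕ → Finset ℕ := fun i j => (range V).filter (fun v : ℕ =>
      (Nat.Coprime (2 * j + 1) (8 * q) ∧ (2 * j + 1) ^ 2 ∣ fq q i (Q * v + u₀)) ∧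
        Int.fract (F (cnq q (Q * v + u₀))) < c) with hBd
  set J : ℕ := Nat.sqrt (q ^ 2 * Q * V) + 1 with hJ
  have hsub : A ⊆ G ∪ (Ico 1 J).biUnion (fun j => (univ : Finset (Fin 3)).biUnion (fun i => Bd i j)) := by
    intro v hv
    rw [hA, mem_filter] at hv
    obtain ⟨hv1, hv2⟩ := hv
    rw [mem_union]
    by_cases hg : ∀ i : Fin 3, ∀ m : ℕ, Odd m → 3 ≤ m → Nat.Coprime m (8 * q) → ¬ m ^ 2 ∣ fq q i (Q * v + u₀)
    · left
      rw [hG, mem_filter]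
      exact ⟨hv1, hg, hv2⟩
    · right
      push Not at hg
      obtain ⟨i, m, hm1, hm2, hm4, hm3⟩ := hg
      obtain ⟨j, rfl⟩ := hm1
      rw [mem_range] at hv1
      rw [mem_biUnion]
      refine ⟨j, ?_, ?_⟩
      · rw [mem_Ico]
        refine ⟨by omega, ?_⟩
        have h1 := Nat.le_of_dvd (fq_pos hq1 (by omega)) hm3
        have h2 := fq_le hq1 i (Q * v + u₀)
        have h6 : Q * v + u₀ ≤ Q * V := by
          have : Q * (v + 1) ≤ Q * V := Nat.mul_le_mul_left _ hv1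
          have e : Q * (v + 1) = Q * v + Q := by ring
          omega
        have h7 : 4 * q ^ 2 * (Q * v + u₀) ≤ 4 * q ^ 2 * (Q * V) := Nat.mul_le_mul_left _ h6
        have h3 : (2 * j + 1) ^ 2 ≤ 4 * (q ^ 2 * Q * V) + 1 := by
          have e : 4 * q ^ 2 * (Q * V) = 4 * (q ^ 2 * Q * V) := by ring
          omega
        have h4 : j * j ≤ q ^ 2 * Q * V := by nlinarith
        have h5 : j ≤ Nat.sqrt (q ^ 2 * Q * V) := Nat.le_sqrt.2 h4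
        omega
      · rw [mem_biUnion]
        refine ⟨i, mem_univ _, ?_⟩
        rw [hBd]
        simp only [mem_filter, mem_range]
        exact ⟨hv1, ⟨hm4, hm3⟩, hv2⟩
  have hcard : (A.card : ℝ) ≤ G.card + ∑ j ∈ Ico 1 J, ∑ i : Fin 3, ((Bd i j).card : ℝ) := by
    have h1 : A.card ≤ G.card + ∑ j ∈ Ico 1 J, ∑ i : Fin 3, (Bd i j).card := by
      refine (card_le_card hsub).trans ((card_union_le _ _).trans ?_)
      apply Nat.add_le_add_left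
      refine card_biUnion_le.trans (sum_le_sum fun j _ => card_biUnion_le)
    exact_mod_cast h1
  -- the number of all points
  have hAlow : c * V - E * (V : ℝ) ^ (1 - τ) ≤ A.card := by
    have h1 := harc V hVV hV1' P hP hI q Q 1 u₀ hq1 hQ1 le_rfl hqV hQV (by simpa using hZ1) V le_rfl c hc0 hc1
    have h2 : (range V).filter (fun w : ℕ => Int.fract (P.eval ((NP (16 * (q : ℝ) ^ 4) (Q * (((1 : ℕ) : ℝ)) ^ 2) (u₀ : ℝ)).eval (w : ℝ))) < c) = A := by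
      rw [hA]
      apply filter_congr
      intro w _
      rw [hF]
      simp only
      rw [cnq_cast hq1 (by omega), NP_eval]
      push_cast
      simp
    rw [h2] at h1
    have := (abs_le.1 h1).1
    linarith
  -- the bad sets
  have hsmall : ∀ i : Fin 3, ∀ j ∈ Ico 1 J, ((2 * j + 1 : ℕ) : ℝ) ≤ Z →
      ((Bd i j).card : ℝ) ≤ c * V * (1 / (2 * (j : ℝ) + 1) ^ 2) + (1 + E * (V : ℝ) ^ (1 - τ)) := by
    intro i j hj hjZ
    rw [mem_Ico] at hj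
    obtain ⟨t, ht⟩ := bad_card hq1 hu1 hcop i (m := 2 * j + 1) (by omega) F c V
    have hW : V / (2 * j + 1) ^ 2 + 1 ≤ V := by
      have h3 : V / (2 * j + 1) ^ 2 ≤ V / 9 := Nat.div_le_div_left (by nlinarith) (by norm_num)
      omega
    have h1 := harc V hVV hV1' P hP hI q Q (2 * j + 1) (Q * t + u₀) hq1 hQ1 (by omega) hqV hQV hjZ _ hW c hc0 hc1
    have h2 : (range (V / (2 * j + 1) ^ 2 + 1)).filter (fun w : ℕ => Int.fract (P.eval ((NP (16 * (q : ℝ) ^ 4) (Q * (((2 * j + 1 : ℕ) : ℝ)) ^ 2) (Q * t + u₀)).eval (w : ℝ))) < c)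
        = (range (V / (2 * j + 1) ^ 2 + 1)).filter (fun w : ℕ =>
        Int.fract (F (cnq q (Q * ((2 * j + 1) ^ 2 * w + t) + u₀))) < c) := by
      apply filter_congr
      intro w _
      rw [hF]
      simp only
      rw [cnq_cast hq1 (by omega), NP_eval]
      push_cast
      ring_nf
    rw [h2] at h1
    have h3 := (abs_le.1 h1).2
    have h4 : ((Bd i j).card : ℝ) ≤ (((range (V / (2 * j + 1) ^ 2 + 1)).filter (fun w : ℕ =>
        Int.fract (F (cnq q (Q * ((2 * j + 1) ^ 2 * w + t) + u₀))) < c)).card : ℝ) := by exact_mod_cast ht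
    have h5 : (((V / (2 * j + 1) ^ 2 + 1 : ℕ)) : ℝ) ≤ V * (1 / (2 * (j : ℝ) + 1) ^ 2) + 1 := by
      have h6 : ((V / (2 * j + 1) ^ 2 : ℕ) : ℝ) ≤ (V : ℝ) / (((2 * j + 1) ^ 2 : ℕ) : ℝ) := Nat.cast_div_le
      push_cast at h6 ⊢
      rw [mul_one_div]
      linarith
    have h7 : c * (((V / (2 * j + 1) ^ 2 + 1 : ℕ)) : ℝ) ≤ c * (V * (1 / (2 * (j : ℝ) + 1) ^ 2) + 1) :=
      mul_le_mul_of_nonneg_left h5 hc0
    linarith
  have hlarge : ∀ i : Fin 3, ∀ j ∈ Ico 1 J,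
      ((Bd i j).card : ℝ) ≤ V * (1 / (2 * (j : ℝ) + 1) ^ 2) + 1 := by
    intro i j hj
    rw [mem_Ico] at hj
    obtain ⟨t, ht⟩ := bad_card hq1 hu1 hcop i (m := 2 * j + 1) (by omega) F c V
    have h5 : (((V / (2 * j + 1) ^ 2 + 1 : ℕ)) : ℝ) ≤ V * (1 / (2 * (j : ℝ) + 1) ^ 2) + 1 := by
      have h6 : ((V / (2 * j + 1) ^ 2 : ℕ) : ℝ) ≤ (V : ℝ) / (((2 * j + 1) ^ 2 : ℕ) : ℝ) := Nat.cast_div_le
      push_cast at h6 ⊢
      rw [mul_one_div]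
      linarith
    refine le_trans ?_ h5
    have h6 := ht.trans (card_filter_le _ _)
    rw [card_range] at h6
    exact_mod_cast h6
  -- summation
  have hsum : ∑ j ∈ Ico 1 J, ∑ i : Fin 3, ((Bd i j).card : ℝ) ≤
      3 * c * V / 4 + 3 * Z * (1 + E * (V : ℝ) ^ (1 - τ)) + 3 * (V * Z⁻¹) + 3 * J := by
    set S₁ := (Ico 1 J).filter (fun j : ℕ => ((2 * j + 1 : ℕ) : ℝ) ≤ Z) with hS₁
    set S₂ := (Ico 1 J).filter (fun j : ℕ => ¬ ((2 * j + 1 : ℕ) : ℝ) ≤ Z) with hS₂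
    have hsplit : ∑ j ∈ Ico 1 J, ∑ i : Fin 3, ((Bd i j).card : ℝ) =
        ∑ j ∈ S₁, ∑ i : Fin 3, ((Bd i j).card : ℝ) + ∑ j ∈ S₂, ∑ i : Fin 3, ((Bd i j).card : ℝ) :=
      (sum_filter_add_sum_filter_not _ _ _).symm
    have hJ1 : 1 ≤ J := by omega
    have h1 : ∑ j ∈ S₁, ∑ i : Fin 3, ((Bd i j).card : ℝ) ≤
        3 * c * V / 4 + 3 * Z * (1 + E * (V : ℝ) ^ (1 - τ)) := by
      have a1 : ∑ j ∈ S₁, ∑ i : Fin 3, ((Bd i j).card : ℝ) ≤
          ∑ j ∈ S₁, (3 * c * V * (1 / (2 * (j : ℝ) + 1) ^ 2) + 3 * (1 + E * (V : ℝ) ^ (1 - τ))) := by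
        apply sum_le_sum
        intro j hj
        rw [hS₁, mem_filter] at hj
        have := sum_le_sum (s := (univ : Finset (Fin 3))) (fun i _ => hsmall i j hj.1 hj.2)
        refine this.trans (le_of_eq ?_)
        rw [sum_const, card_univ, Fintype.card_fin, nsmul_eq_mul]
        push_cast; ring
      have a2 : (S₁.card : ℝ) ≤ Z := by
        have b1 : S₁ ⊆ Icc 1 ⌊Z⌋₊ := by
          intro j hj
          rw [hS₁, mem_filter, mem_Ico] at hj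
          rw [mem_Icc]
          refine ⟨hj.1.1, Nat.le_floor ?_⟩
          have := hj.2
          push_cast at this
          have b2 : (0 : ℝ) ≤ j := Nat.cast_nonneg j
          linarith
        have b3 := card_le_card b1
        rw [Nat.card_Icc] at b3
        have b4 : (S₁.card : ℝ) ≤ ⌊Z⌋₊ := by exact_mod_cast (by omega : S₁.card ≤ ⌊Z⌋₊)
        exact b4.trans (Nat.floor_le (by linarith))
      have a3 : ∑ j ∈ S₁, 1 / (2 * (j : ℝ) + 1) ^ 2 ≤ 1 / 4 := by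
        have b1 := sum_sq 1 J le_rfl hJ1
        have b2 : ∑ j ∈ S₁, 1 / (2 * (j : ℝ) + 1) ^ 2 ≤ ∑ j ∈ Ico 1 J, 1 / (2 * (j : ℝ) + 1) ^ 2 :=
          sum_le_sum_of_subset_of_nonneg (filter_subset _ _) (fun _ _ _ => by positivity)
        have b3 : (0 : ℝ) ≤ 1 / (4 * (J : ℝ)) := by positivity
        have b4 : 1 / (4 * ((1 : ℕ) : ℝ)) = 1 / 4 := by norm_num
        rw [b4] at b1
        linarith
      rw [sum_add_distrib, sum_const, nsmul_eq_mul, ← mul_sum] at a1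
      have a4 : 3 * c * V * ∑ j ∈ S₁, 1 / (2 * (j : ℝ) + 1) ^ 2 ≤ 3 * c * V * (1 / 4) :=
        mul_le_mul_of_nonneg_left a3 (by positivity)
      have a5 : (S₁.card : ℝ) * (3 * (1 + E * (V : ℝ) ^ (1 - τ))) ≤ Z * (3 * (1 + E * (V : ℝ) ^ (1 - τ))) :=
        mul_le_mul_of_nonneg_right a2 (by have := hpw (1 - τ); positivity)
      linarith
    have h2 : ∑ j ∈ S₂, ∑ i : Fin 3, ((Bd i j).card : ℝ) ≤ 3 * (V * Z⁻¹) + 3 * J := by
      have a1 : ∑ j ∈ S₂, ∑ i : Fin 3, ((Bd i j).card : ℝ) ≤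
          ∑ j ∈ S₂, (3 * V * (1 / (2 * (j : ℝ) + 1) ^ 2) + 3) := by
        apply sum_le_sum
        intro j hj
        rw [hS₂, mem_filter] at hj
        have := sum_le_sum (s := (univ : Finset (Fin 3))) (fun i _ => hlarge i j hj.1)
        refine this.trans (le_of_eq ?_)
        rw [sum_const, card_univ, Fintype.card_fin, nsmul_eq_mul]
        push_cast; ring
      have a2 : (S₂.card : ℝ) ≤ J := by
        have b1 := card_le_card (filter_subset (fun j : ℕ => ¬ ((2 * j + 1 : ℕ) : ℝ) ≤ Z) (Ico 1 J))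
        rw [Nat.card_Ico] at b1
        exact_mod_cast (by rw [hS₂]; omega : S₂.card ≤ J)
      have a3 : ∑ j ∈ S₂, 1 / (2 * (j : ℝ) + 1) ^ 2 ≤ Z⁻¹ := by
        set K : ℕ := ⌈Z / 4⌉₊ with hK
        have k1 : 1 ≤ K := Nat.one_le_iff_ne_zero.2 (by
          intro h0
          rw [hK, Nat.ceil_eq_zero] at h0
          linarith)
        have k2 : Z / 4 ≤ K := Nat.le_ceil _
        have b1 := sum_sq K (K + J) k1 (by omega)
        have b2 : ∑ j ∈ S₂, 1 / (2 * (j : ℝ) + 1) ^ 2 ≤ ∑ j ∈ Ico K (K + J), 1 / (2 * (j : ℝ) + 1) ^ 2 := by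
          apply sum_le_sum_of_subset_of_nonneg _ (fun _ _ _ => by positivity)
          intro j hj
          rw [hS₂, mem_filter, mem_Ico] at hj
          rw [mem_Ico]
          refine ⟨Nat.ceil_le.2 ?_, by omega⟩
          have := hj.2
          push_cast at this
          have b2 : (1 : ℝ) ≤ j := by exact_mod_cast hj.1.1
          linarith
        have b3 : (0 : ℝ) ≤ 1 / (4 * ((K + J : ℕ) : ℝ)) := by positivity
        have b4 : 1 / (4 * (K : ℝ)) ≤ Z⁻¹ := by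
          rw [← one_div]
          apply one_div_le_one_div_of_le (by linarith)
          linarith
        linarith
      rw [sum_add_distrib, sum_const, nsmul_eq_mul, ← mul_sum] at a1
      have a4 : 3 * (V : ℝ) * ∑ j ∈ S₂, 1 / (2 * (j : ℝ) + 1) ^ 2 ≤ 3 * V * Z⁻¹ :=
        mul_le_mul_of_nonneg_left a3 (by positivity)
      linarith
    rw [hsplit]
    linarith
  -- sizes
  have hJs : (J : ℝ) ≤ 9 * (V : ℝ) ^ (1 - ρ) := by
    have h1 : ((Nat.sqrt (q ^ 2 * Q * V) : ℕ) : ℝ) ≤ Real.sqrt ((q : ℝ) ^ 2 * Q * V) := by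
      apply Real.le_sqrt_of_sq_le
      exact_mod_cast Nat.sqrt_le' (q ^ 2 * Q * V)
    have h2 : Real.sqrt ((q : ℝ) ^ 2 * Q * V) ≤ 8 * (V : ℝ) ^ (1 - ρ) := by
      rw [Real.sqrt_le_left (by positivity)]
      have h3 : ((V : ℝ) ^ ρ) ^ 4 * V ≤ ((V : ℝ) ^ (1 - ρ)) ^ 2 := by
        rw [← Real.rpow_natCast, ← Real.rpow_mul hV0.le, ← Real.rpow_natCast, ← Real.rpow_mul hV0.le]
        calc (V : ℝ) ^ (ρ * ((4 : ℕ) : ℝ)) * V = (V : ℝ) ^ (ρ * ((4 : ℕ) : ℝ)) * (V : ℝ) ^ (1 : ℝ) := by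
              rw [Real.rpow_one]
          _ = (V : ℝ) ^ (ρ * ((4 : ℕ) : ℝ) + 1) := by rw [← Real.rpow_add hV0]
          _ ≤ _ := Real.rpow_le_rpow_of_exponent_le hV1 (by push_cast; linarith)
      calc (q : ℝ) ^ 2 * Q * V ≤ ((V : ℝ) ^ ρ) ^ 2 * (64 * ((V : ℝ) ^ ρ) ^ 2) * V := by gcongr
        _ = 64 * (((V : ℝ) ^ ρ) ^ 4 * V) := by ring
        _ ≤ 64 * ((V : ℝ) ^ (1 - ρ)) ^ 2 := by linarith
        _ = _ := by ring
    have h4 : (1 : ℝ) ≤ (V : ℝ) ^ (1 - ρ) := Real.one_le_rpow hV1 (by linarith)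
    rw [hJ]; push_cast
    linarith
  have hZinv : V * Z⁻¹ = (V : ℝ) ^ (1 - ρ) := by
    rw [hZ, Real.rpow_sub hV0, Real.rpow_one]
    rfl
  have hZE : Z * (V : ℝ) ^ (1 - τ) ≤ (V : ℝ) ^ (1 - ρ) := by
    rw [hZ, ← Real.rpow_add hV0]
    exact Real.rpow_le_rpow_of_exponent_le hV1 (by linarith)
  have hZ2 : Z ≤ (V : ℝ) ^ (1 - ρ) := Real.rpow_le_rpow_of_exponent_le hV1 (by linarith)
  have hτρ : (V : ℝ) ^ (1 - τ) ≤ (V : ℝ) ^ (1 - ρ) := Real.rpow_le_rpow_of_exponent_le hV1 (by linarith)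
  have hfin : 40 * E * (V : ℝ) ^ (1 - ρ) ≤ c * V / 8 := by
    have h1 : (320 * E) ≤ (V : ℝ) ^ (ρ / 2) := by
      have h2 : (320 * E) ^ (2 / ρ) ≤ (V : ℝ) := hV₂.le.trans (by exact_mod_cast (le_max_right _ _).trans hV)
      calc (320 * E) = ((320 * E) ^ (2 / ρ)) ^ (ρ / 2) := by
            rw [← Real.rpow_mul (by positivity)]
            have : 2 / ρ * (ρ / 2) = 1 := by field_simp
            rw [this, Real.rpow_one]
        _ ≤ _ := Real.rpow_le_rpow (by positivity) h2 (by positivity)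
    have h2 : (V : ℝ) ^ (1 - ρ) * (V : ℝ) ^ (ρ / 2) = (V : ℝ) ^ (-(ρ / 2)) * V := by
      rw [← Real.rpow_add hV0]
      conv_rhs => rw [← Real.rpow_one (V : ℝ), ← Real.rpow_mul hV0.le, ← Real.rpow_add (by positivity)]
      ring_nf
    have h3 : (320 * E) * (V : ℝ) ^ (1 - ρ) ≤ (V : ℝ) ^ (ρ / 2) * (V : ℝ) ^ (1 - ρ) :=
      mul_le_mul_of_nonneg_right h1 (hpw _).le
    have h4 : (V : ℝ) ^ (-(ρ / 2)) * V ≤ c * V := mul_le_mul_of_nonneg_right hcV hV0.le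
    nlinarith
  have hJ3 : E * (Z * (V : ℝ) ^ (1 - τ)) ≤ E * (V : ℝ) ^ (1 - ρ) := mul_le_mul_of_nonneg_left hZE (by linarith)
  have hJ4 : E * (V : ℝ) ^ (1 - τ) ≤ E * (V : ℝ) ^ (1 - ρ) := mul_le_mul_of_nonneg_left hτρ (by linarith)
  have hJ5 : (V : ℝ) ^ (1 - ρ) ≤ E * (V : ℝ) ^ (1 - ρ) := by
    have := hpw (1 - ρ)
    nlinarith
  rw [hZinv] at hsum
  show c * V / 8 ≤ (G.card : ℝ)
  nlinarith

end Pool.Agent.T6.H35.CQ
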